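import Mathlib
import Pool.Agent.H56.Sb2

namespace Pool.Agent.Results.MP_9b2749_nt.ModCube
open Finset Pool.Agent.H56.Sb2

theorem fE (t : ℚ) (j : ℕ) : (∏ i ∈ range j, (1 - t * ((i : ℚ) + 1)⁻¹)) * (j.factorial : ℚ)
    = ∏ i ∈ range j, ((i : ℚ) + 1 - t) := by
  induction j with
  | zero => simp
  | succ j ih =>
    rw [prod_range_succ, prod_range_succ, ← ih, Nat.factorial_succ]
    have h3 : ((j : ℚ) + 1) ≠ 0 := by positivity
    push_cast
    field_simp

theorem fD (k q : ℕ) : (∏ i ∈ range q, (((q + k : ℕ) : ℚ) - i)) * (k.factorial : ℚ)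
    = ((q + k).factorial : ℚ) := by
  induction q with
  | zero => simp
  | succ q ih =>
    rw [prod_range_succ', show q + 1 + k = (q + k) + 1 by ring, Nat.factorial_succ]
    have : ∏ i ∈ range q, ((((q + k) + 1 : ℕ) : ℚ) - ((i + 1 : ℕ) : ℚ))
        = ∏ i ∈ range q, (((q + k : ℕ) : ℚ) - i) := by
      refine Finset.prod_congr rfl fun i _ => ?_
      push_cast; ring
    rw [this, Nat.cast_mul, ← ih]
    push_cast; ring

theorem result (m : ℕ) (r : ℤ) (p : ℕ) (hp : p.Prime) (hodd : Odd p) (hm : 2 < m)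
    (hpm : ¬ p ∣ m) (hpr : r < p) (hpar : ¬ ((m : ℤ) ≡ r [ZMOD 2]))
    (hcong : (p : ℤ) ≡ r [ZMOD m]) (hr : -(m : ℚ) / 2 ≤ r) :
    ∃ a b : ℤ, ¬ (p : ℤ) ∣ b ∧
      (∑ k ∈ range p, (-1 : ℚ) ^ (k * m) *
        ((∏ i ∈ range k, ((r : ℚ) / m - i)) / (k.factorial : ℚ)) ^ m) / (p : ℚ) ^ 3 = a / b := by
  have : Fact p.Prime := ⟨hp⟩
  have hp3 : 3 ≤ p := by
    have := hp.two_le
    obtain ⟨k, hk⟩ := hodd
    omega
  have hr' : -(m : ℤ) ≤ 2 * r := by
    have : (-(m : ℚ)) ≤ 2 * r := by linarith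
    exact_mod_cast this
  obtain ⟨n, hn⟩ := hcong.symm.dvd
  have hn1 : 1 ≤ n := by
    by_contra h
    have : (m : ℤ) * n ≤ 0 := mul_nonpos_of_nonneg_of_nonpos (by positivity) (by omega)
    omega
  obtain ⟨q, rfl⟩ : ∃ q : ℕ, n = q + 1 := ⟨(n - 1).toNat, by omega⟩
  have hmq : ((m * q : ℕ) : ℤ) = p - r - m := by push_cast; linear_combination -hn
  have hd : m * q + 2 ≤ p := by omega
  have hev : Even (m * q) := by
    obtain ⟨k, hk⟩ := hodd
    unfold Int.ModEq at hpar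
    rw [Nat.even_iff]; omega
  have hqp : q < p := by nlinarith
  have hm0 : (m : ℚ) ≠ 0 := by positivity
  have hp0 : (p : ℚ) ≠ 0 := by positivity
  have hmi : ((m : ℚ))⁻¹ ∈ Zp p := by
    have := inv_mem_int (p := p) (m : ℤ) (fun h => hpm (Int.natCast_dvd_natCast.1 h))
    simpa using this
  set t : ℚ := (p : ℚ) / m with ht
  have hx : (r : ℚ) / m = t - (q + 1) := by
    have := congrArg (fun x : ℤ => (x : ℚ)) hn
    push_cast at this
    rw [ht]; field_simp; linear_combination -this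
  set T : ℕ → ℚ := fun k => (∏ i ∈ range k, (((q + i : ℕ) : ℚ) + 1 - t)) / (k.factorial : ℚ)
    with hT
  have hterm : ∀ k, (-1 : ℚ) ^ (k * m) *
      ((∏ i ∈ range k, ((r : ℚ) / m - i)) / (k.factorial : ℚ)) ^ m = T k ^ m := by
    intro k
    rw [pow_mul, ← mul_pow, ← mul_div_assoc]
    have : (-1 : ℚ) ^ k * ∏ i ∈ range k, ((r : ℚ) / m - i)
        = ∏ i ∈ range k, (((q + i : ℕ) : ℚ) + 1 - t) := by
      rw [← card_range k, ← Finset.prod_const, card_range, ← Finset.prod_mul_distrib]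
      refine Finset.prod_congr rfl fun i _ => ?_
      rw [hx]; push_cast; ring
    rw [this]
  simp_rw [hterm]
  set c : ℚ := ∏ i ∈ range q, ((i : ℚ) + 1 - t) with hc
  have hfac : ∀ i, i < q → ((i : ℚ) + 1 - t) ≠ 0 ∧ ((i : ℚ) + 1 - t)⁻¹ ∈ Zp p := by
    intro i hi
    have hnd : ¬ (p : ℤ) ∣ (m : ℤ) * (i + 1) - p := by
      intro h
      have h2 : (p : ℤ) ∣ (m : ℤ) * (i + 1) := by simpa using dvd_add h (dvd_refl (p : ℤ))
      rcases (Nat.prime_iff_prime_int.1 hp).dvd_or_dvd h2 with h3 | h3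
      · exact hpm (Int.natCast_dvd_natCast.1 h3)
      · have := Int.le_of_dvd (by positivity) h3; omega
    have hne : ((((m : ℤ) * (i + 1) - p : ℤ)) : ℚ) ≠ 0 := by
      intro h; apply hnd
      have : (m : ℤ) * (i + 1) - p = 0 := by exact_mod_cast h
      simp [this]
    have he : ((i : ℚ) + 1 - t) = ((((m : ℤ) * (i + 1) - p : ℤ)) : ℚ) / m := by
      rw [ht]; push_cast; field_simp
    rw [he]
    refine ⟨div_ne_zero hne hm0, ?_⟩
    rw [inv_div, div_eq_mul_inv]
    exact mul_mem (natCast_mem _ _) (inv_mem_int _ hnd)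
  have hc0 : c ≠ 0 := Finset.prod_ne_zero_iff.2 fun i hi => (hfac i (mem_range.1 hi)).1
  have hci : c⁻¹ ∈ Zp p := by
    rw [hc, ← Finset.prod_inv_distrib]
    exact prod_mem fun i hi => (hfac i (mem_range.1 hi)).2
  have hcT : ∀ k, (∏ i ∈ range (q + k), (1 - t * ((i : ℚ) + 1)⁻¹)) *
      (∏ i ∈ range q, (((q + k : ℕ) : ℚ) - i)) = c * T k := by
    intro k
    have h1 := fE t (q + k)
    rw [prod_range_add (fun i => (i : ℚ) + 1 - t), ← hc, ← fD k q] at h1
    have hk : (k.factorial : ℚ) ≠ 0 := by positivity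
    simp only [hT]
    rw [← mul_div_assoc, eq_div_iff hk, mul_assoc, h1]
  obtain ⟨z, hz, hcore⟩ := core hp3 hodd m q hm hmi hd hev
  have hsplit := sum_range_add (fun j : ℕ => (∏ i ∈ range j, (1 - t * ((i : ℚ) + 1)⁻¹)) ^ m *
      (∏ i ∈ range q, ((j : ℚ) - i)) ^ m) q (p - q)
  rw [show q + (p - q) = p by omega, hcore, Finset.sum_eq_zero (s := range q) (fun j hj => by
    rw [Finset.prod_eq_zero (s := range q) (i := j) hj (by simp), zero_pow (by omega), mul_zero]),
    zero_add] at hsplit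
  simp_rw [← mul_pow, hcT, mul_pow] at hsplit
  rw [← Finset.mul_sum] at hsplit
  have hhead : ∑ k ∈ range (p - q), T k ^ m = (p : ℚ) ^ 3 * ((c⁻¹) ^ m * z) := by
    have : (c⁻¹) ^ m * c ^ m = 1 := by rw [← mul_pow, inv_mul_cancel₀ hc0, one_pow]
    linear_combination (-(c⁻¹) ^ m) * hsplit - (∑ k ∈ range (p - q), T k ^ m) * this
  have htail : ∀ k, ∃ w, w ∈ Zp p ∧ (k < q → T (p - q + k) ^ m = (p : ℚ) ^ 3 * w) := by
    intro k
    by_cases hk : k < q
    · have hmem : p - q - 1 ∈ range (p - q + k) := by simp; omega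
      have hfi : (((p - q + k).factorial : ℚ))⁻¹ ∈ Zp p := by
        have := inv_mem_int (p := p) (((p - q + k).factorial : ℕ) : ℤ) (fun h => by
          have := (hp.dvd_factorial).1 (Int.natCast_dvd_natCast.1 h); omega)
        simpa using this
      have htm : t ∈ Zp p := by
        rw [ht, div_eq_mul_inv]; exact mul_mem (natCast_mem _ _) hmi
      set U := (1 - (m : ℚ)⁻¹) * (∏ i ∈ (range (p - q + k)).erase (p - q - 1),
        (((q + i : ℕ) : ℚ) + 1 - t)) * (((p - q + k).factorial : ℚ))⁻¹ with hU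
      have hUm : U ∈ Zp p := mul_mem (mul_mem (sub_mem (one_mem _) hmi) (prod_mem fun i _ =>
        sub_mem (add_mem (natCast_mem _ _) (one_mem _)) htm)) hfi
      have hTU : T (p - q + k) = p * U := by
        simp only [hT]
        rw [← Finset.mul_prod_erase _ _ hmem, hU]
        have h1 : ((q + (p - q - 1) : ℕ) : ℚ) + 1 = p := by
          have : q + (p - q - 1) + 1 = p := by omega
          exact_mod_cast this
        rw [h1, ht]; ring
      obtain ⟨e, rfl⟩ : ∃ e, m = e + 3 := ⟨m - 3, by omega⟩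
      exact ⟨(p : ℚ) ^ e * U ^ (e + 3), mul_mem (pow_mem (natCast_mem _ _) _) (pow_mem hUm _),
        fun _ => by rw [hTU]; ring⟩
    · exact ⟨0, zero_mem _, fun h => absurd h hk⟩
  choose w hw hweq using htail
  have hS := sum_range_add (fun k => T k ^ m) (p - q) q
  rw [show p - q + q = p by omega, hhead,
    Finset.sum_congr rfl (fun k hk => hweq k (mem_range.1 hk)), ← Finset.mul_sum, ← mul_add] at hS
  rw [hS, mul_div_cancel_left₀ _ (pow_ne_zero 3 hp0)]
  exact (add_mem (mul_mem (pow_mem hci _) hz) (sum_mem fun k _ => hw k) : _ ∈ Zp p)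

end Pool.Agent.Results.MP_9b2749_nt.ModCube
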